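import Mathlib

/-!
A rank lemma for pairs of matrices.
-/

namespace Pool.Agent.Helper68.AutF

open Matrix

/-- A finite family of nonzero linear maps has a common point of non-vanishing. -/
theorem exists_ne_zero {V W : Type*} [AddCommGroup V] [Module ℚ V] [AddCommGroup W] [Module ℚ W]
    {ι : Type*} [Finite ι] (l : ι → V →ₗ[ℚ] W) (hl : ∀ t, l t ≠ 0) : ∃ v, ∀ t, l t v ≠ 0 := by
  by_contra hcon
  push Not at hcon
  have h1 : (⋃ t : ι, ((LinearMap.ker (l t) : Submodule ℚ V) : Set V)) = Set.univ := by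
    ext v
    simp only [Set.mem_iUnion, SetLike.mem_coe, LinearMap.mem_ker, Set.mem_univ, iff_true]
    exact hcon v
  obtain ⟨t, ht⟩ := Subspace.exists_eq_top_of_iUnion_eq_univ h1
  exact hl t (LinearMap.ker_eq_top.1 ht)

/-- A family with a dual family of functionals is linearly independent. -/
theorem linInd_of_dual {V ι : Type*} [AddCommGroup V] [Module ℚ V] [Fintype ι]
    (x : ι → V) (f : ι → V →ₗ[ℚ] ℚ) (h0 : ∀ i j, i ≠ j → f i (x j) = 0)
    (h1 : ∀ i, f i (x i) ≠ 0) : LinearIndependent ℚ x := by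
  classical
  rw [Fintype.linearIndependent_iff]
  intro g hg i
  have h2 := congrArg (f i) hg
  rw [map_sum, map_zero, Finset.sum_eq_single i] at h2
  · rw [map_smul, smul_eq_mul] at h2
    exact (mul_eq_zero.1 h2).resolve_right (h1 i)
  · intro j _ hj
    rw [map_smul, h0 i j hj.symm, smul_zero]
  · intro h
    exact absurd (Finset.mem_univ i) h

/-- first type of functionals -/
def fn1 {m : ℕ} (φ v : Fin m → ℚ) (A : Matrix (Fin m) (Fin m) ℚ) :
    ((Fin m → ℚ) × (Fin m → ℚ)) →ₗ[ℚ] ℚ where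
  toFun p := φ ⬝ᵥ (A *ᵥ p.1) - p.2 ⬝ᵥ (A *ᵥ v)
  map_add' p p' := by
    simp only [Prod.fst_add, Prod.snd_add, mulVec_add, dotProduct_add, add_dotProduct]
    ring
  map_smul' c p := by
    simp only [Prod.smul_fst, Prod.smul_snd, mulVec_smul, dotProduct_smul, smul_dotProduct,
      smul_eq_mul, RingHom.id_apply]
    ring

/-- second type of functionals -/
def fn2 {m : ℕ} (φ v : Fin m → ℚ) (c d : ℚ) :
    ((Fin m → ℚ) × (Fin m → ℚ)) →ₗ[ℚ] ℚ where
  toFun p := c * (φ ⬝ᵥ p.1) + d * (p.2 ⬝ᵥ v)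
  map_add' p p' := by
    simp only [Prod.fst_add, Prod.snd_add, dotProduct_add, add_dotProduct]
    ring
  map_smul' c p := by
    simp only [Prod.smul_fst, Prod.smul_snd, dotProduct_smul, smul_dotProduct,
      smul_eq_mul, RingHom.id_apply]
    ring

theorem comm_shift {m : ℕ} (x y : Matrix (Fin m) (Fin m) ℚ) (c d : ℚ) :
    (x - c • 1) * (y - d • 1) - (y - d • 1) * (x - c • 1) = x * y - y * x := by
  simp only [sub_mul, mul_sub, smul_mul_assoc, mul_smul_comm, one_mul, mul_one, smul_sub,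
    smul_smul, mul_comm d c]
  abel

theorem pairing {m : ℕ} (x y : Matrix (Fin m) (Fin m) ℚ) (φ v : Fin m → ℚ) :
    φ ⬝ᵥ (x *ᵥ (y *ᵥ v)) - (φ ᵥ* y) ⬝ᵥ (x *ᵥ v) = φ ⬝ᵥ ((x * y - y * x) *ᵥ v) := by
  rw [sub_mulVec, dotProduct_sub, ← mulVec_mulVec, ← mulVec_mulVec, ← dotProduct_mulVec]

theorem M1 {m q : Nat} (hq : 0 < q) (a b : Fin q → Matrix (Fin m) (Fin m) ℚ)
    (hne : ∀ s t, s ≠ t → a s * b t = b t * a s)
    (hd : ∀ t, a t * b t ≠ b t * a t) : q + 2 ≤ 2 * m := by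
  classical
  -- a vector on which no commutator vanishes
  obtain ⟨v, hv⟩ : ∃ v : Fin m → ℚ, ∀ t, (a t * b t - b t * a t) *ᵥ v ≠ 0 := by
    have := exists_ne_zero (fun t => (a t * b t - b t * a t).mulVecLin) (fun t h => hd t (by
      have h' : (a t * b t - b t * a t) = 0 := by
        apply Matrix.mulVec_injective
        funext v
        rw [← Matrix.mulVecLin_apply, h]
        simp
      exact sub_eq_zero.1 h'))
    exact this
  have hv0 : v ≠ 0 := by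
    intro h
    exact hv ⟨0, hq⟩ (by rw [h, mulVec_zero])
  -- a functional
  obtain ⟨ψ, hψ⟩ : ∃ ψ : Fin m → ℚ, (∀ t, ψ ⬝ᵥ ((a t * b t - b t * a t) *ᵥ v) ≠ 0) ∧
      ψ ⬝ᵥ v ≠ 0 := by
    let w : Option (Fin q) → Fin m → ℚ := fun o => o.elim v
      fun t => (a t * b t - b t * a t) *ᵥ v
    have hw : ∀ o, w o ≠ 0 := by
      intro o
      cases o with
      | none => exact hv0
      | some t => exact hv t
    let l : Option (Fin q) → (Fin m → ℚ) →ₗ[ℚ] ℚ := fun o =>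
      { toFun := fun φ => φ ⬝ᵥ w o
        map_add' := fun x y => add_dotProduct _ _ _
        map_smul' := fun c x => smul_dotProduct _ _ _ }
    obtain ⟨φ, hφ⟩ := exists_ne_zero l (fun o h => hw o (by
      refine dotProduct_eq_zero _ fun φ => ?_
      have := LinearMap.congr_fun h φ
      rw [dotProduct_comm]
      exact this))
    exact ⟨φ, fun t => hφ (some t), hφ none⟩
  obtain ⟨φ, hφ1, hφ⟩ : ∃ φ : Fin m → ℚ, φ ⬝ᵥ v = 1 ∧
      ∀ t, φ ⬝ᵥ ((a t * b t - b t * a t) *ᵥ v) ≠ 0 := by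
    refine ⟨(ψ ⬝ᵥ v)⁻¹ • ψ, ?_, fun t => ?_⟩
    · rw [smul_dotProduct, smul_eq_mul, inv_mul_cancel₀ hψ.2]
    · rw [smul_dotProduct, smul_eq_mul]
      exact mul_ne_zero (inv_ne_zero hψ.2) (hψ.1 t)
  -- normalise
  let a' : Fin q → Matrix (Fin m) (Fin m) ℚ := fun s => a s - (φ ⬝ᵥ (a s *ᵥ v)) • 1
  let b' : Fin q → Matrix (Fin m) (Fin m) ℚ := fun s => b s - (φ ⬝ᵥ (b s *ᵥ v)) • 1
  have ha' : ∀ s, φ ⬝ᵥ (a' s *ᵥ v) = 0 := by
    intro s
    simp only [a', sub_mulVec, smul_mulVec, one_mulVec, dotProduct_sub, dotProduct_smul,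
      smul_eq_mul, hφ1, mul_one, sub_self]
  have hb' : ∀ s, φ ⬝ᵥ (b' s *ᵥ v) = 0 := by
    intro s
    simp only [b', sub_mulVec, smul_mulVec, one_mulVec, dotProduct_sub, dotProduct_smul,
      smul_eq_mul, hφ1, mul_one, sub_self]
  have hab : ∀ s t, a' s * b' t - b' t * a' s = a s * b t - b t * a s := by
    exact fun s t => comm_shift _ _ _ _
  have hpair : ∀ s t, φ ⬝ᵥ (a' s *ᵥ (b' t *ᵥ v)) - (φ ᵥ* b' t) ⬝ᵥ (a' s *ᵥ v) =
      φ ⬝ᵥ ((a s * b t - b t * a s) *ᵥ v) := by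
    intro s t
    rw [← hab]
    exact pairing _ _ _ _
  -- the vectors
  let x : Fin q ⊕ Fin 2 → (Fin m → ℚ) × (Fin m → ℚ) := fun i => i.elim
    (fun t => (b' t *ᵥ v, φ ᵥ* b' t)) (fun k => if k = 0 then (v, 0) else (0, φ))
  let f : Fin q ⊕ Fin 2 → ((Fin m → ℚ) × (Fin m → ℚ)) →ₗ[ℚ] ℚ := fun i => i.elim
    (fun s => fn1 φ v (a' s)) (fun k => if k = 0 then fn2 φ v 1 0 else fn2 φ v 0 1)
  have hli : LinearIndependent ℚ x := by
    refine linInd_of_dual x f ?_ ?_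
    · rintro (s | k) (t | l) hne'
      · have hst : s ≠ t := fun h => hne' (by rw [h])
        change φ ⬝ᵥ (a' s *ᵥ (b' t *ᵥ v)) - (φ ᵥ* b' t) ⬝ᵥ (a' s *ᵥ v) = 0
        rw [hpair, hne s t hst, sub_self, zero_mulVec, dotProduct_zero]
      · fin_cases l
        · change φ ⬝ᵥ (a' s *ᵥ v) - (0 : Fin m → ℚ) ⬝ᵥ (a' s *ᵥ v) = 0
          rw [ha', zero_dotProduct, sub_self]
        · change φ ⬝ᵥ (a' s *ᵥ (0 : Fin m → ℚ)) - φ ⬝ᵥ (a' s *ᵥ v) = 0
          rw [ha', mulVec_zero, dotProduct_zero, sub_self]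
      · fin_cases k
        · change 1 * (φ ⬝ᵥ (b' t *ᵥ v)) + 0 * ((φ ᵥ* b' t) ⬝ᵥ v) = 0
          rw [hb', zero_mul, mul_zero, add_zero]
        · change 0 * (φ ⬝ᵥ (b' t *ᵥ v)) + 1 * ((φ ᵥ* b' t) ⬝ᵥ v) = 0
          rw [← dotProduct_mulVec, hb', mul_zero, mul_zero, add_zero]
      · fin_cases k <;> fin_cases l
        · exact absurd rfl hne'
        · change 1 * (φ ⬝ᵥ (0 : Fin m → ℚ)) + 0 * (φ ⬝ᵥ v) = 0
          rw [dotProduct_zero, zero_mul, mul_zero, add_zero]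
        · change 0 * (φ ⬝ᵥ v) + 1 * ((0 : Fin m → ℚ) ⬝ᵥ v) = 0
          rw [zero_dotProduct, zero_mul, mul_zero, add_zero]
        · exact absurd rfl hne'
    · rintro (s | k)
      · change φ ⬝ᵥ (a' s *ᵥ (b' s *ᵥ v)) - (φ ᵥ* b' s) ⬝ᵥ (a' s *ᵥ v) ≠ 0
        rw [hpair]
        exact hφ s
      · fin_cases k
        · change 1 * (φ ⬝ᵥ v) + 0 * ((0 : Fin m → ℚ) ⬝ᵥ v) ≠ 0
          rw [hφ1]
          norm_num
        · change 0 * (φ ⬝ᵥ (0 : Fin m → ℚ)) + 1 * (φ ⬝ᵥ v) ≠ 0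
          rw [hφ1]
          norm_num
  have hcard := hli.fintype_card_le_finrank
  rw [Fintype.card_sum, Fintype.card_fin, Fintype.card_fin, Module.finrank_prod,
    Module.finrank_fin_fun] at hcard
  omega

end Pool.Agent.Helper68.AutF
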