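import Mathlib

/-!
Integer matrices congruent to `1` modulo `3` whose eigenvalues are roots of unity are unipotent.
-/

namespace Pool.Agent.Helper68.AutF

open Polynomial

theorem norm_prod_le (s : Multiset ℂ) (h : ∀ x ∈ s, ‖x‖ < 1) : ‖s.prod‖ ≤ 1 := by
  induction s using Multiset.induction_on with
  | empty => simp
  | cons a s ih =>
    rw [Multiset.prod_cons, norm_mul]
    have h1 := h a (Multiset.mem_cons_self a s)
    have h2 := ih fun x hx => h x (Multiset.mem_cons_of_mem hx)
    exact mul_le_one₀ h1.le (norm_nonneg _) h2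

theorem norm_prod_lt (s : Multiset ℂ) (h : ∀ x ∈ s, ‖x‖ < 1) (hs : s ≠ 0) : ‖s.prod‖ < 1 := by
  obtain ⟨a, ha⟩ := Multiset.exists_mem_of_ne_zero hs
  obtain ⟨t, rfl⟩ := Multiset.exists_cons_of_mem ha
  rw [Multiset.prod_cons, norm_mul]
  have h1 := h a (Multiset.mem_cons_self a t)
  have h2 := norm_prod_le t fun x hx => h x (Multiset.mem_cons_of_mem hx)
  calc ‖a‖ * ‖t.prod‖ ≤ ‖a‖ * 1 := mul_le_mul_of_nonneg_left h2 (norm_nonneg _)
    _ < 1 := by rwa [mul_one]

/-- A monic integer polynomial with all complex roots in the open unit disc is a power of `X`. -/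
theorem eq_X_pow (d : ℕ) : ∀ g : ℤ[X], g.Monic → g.natDegree = d →
    (∀ z : ℂ, (g.map (Int.castRingHom ℂ)).IsRoot z → ‖z‖ < 1) → g = X ^ d := by
  induction d with
  | zero =>
    intro g hg hd _
    rw [pow_zero]
    exact (Monic.natDegree_eq_zero hg).1 hd
  | succ d ih =>
    intro g hg hd h
    have hgm : (g.map (Int.castRingHom ℂ)).Monic := hg.map _
    have hdm : (g.map (Int.castRingHom ℂ)).natDegree = d + 1 := by
      rw [hg.natDegree_map, hd]
    have hsp : (g.map (Int.castRingHom ℂ)).Splits := IsAlgClosed.splits _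
    have h0 := hsp.coeff_zero_eq_prod_roots_of_monic hgm
    have hcard : (g.map (Int.castRingHom ℂ)).roots.card = d + 1 := by
      rw [← hdm]
      exact hsp.natDegree_eq_card_roots.symm
    have hne : (g.map (Int.castRingHom ℂ)).roots ≠ 0 := by
      intro h'
      rw [h'] at hcard
      simp at hcard
    have h1 : ‖(g.map (Int.castRingHom ℂ)).roots.prod‖ < 1 :=
      norm_prod_lt _ (fun x hx => h x (isRoot_of_mem_roots hx)) hne
    have h2 : g.coeff 0 = 0 := by
      have h3 : ‖(g.map (Int.castRingHom ℂ)).coeff 0‖ < 1 := by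
        rw [h0, norm_mul, norm_pow, norm_neg, norm_one, one_pow, one_mul]
        exact h1
      rw [coeff_map, Int.coe_castRingHom, Complex.norm_intCast] at h3
      have h4 : |g.coeff 0| < 1 := by exact_mod_cast h3
      exact Int.abs_lt_one_iff.1 h4
    obtain ⟨k, hk⟩ := X_dvd_iff.2 h2
    have hkm : k.Monic := by
      rw [hk] at hg
      exact (monic_X.of_mul_monic_left hg)
    have hkd : k.natDegree = d := by
      have := congrArg natDegree hk
      rw [hd, natDegree_mul X_ne_zero hkm.ne_zero, natDegree_X] at this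
      omega
    have h5 := ih k hkm hkd fun z hz => h z (by
      rw [hk, Polynomial.map_mul]
      exact root_mul_left_of_isRoot _ hz)
    rw [hk, h5, pow_succ']

theorem charpoly_root {m : ℕ} (A B : Matrix (Fin m) (Fin m) ℤ) (hAB : A = 1 + (3 : ℤ) • B)
    {z : ℂ} (hz : (B.map (Int.castRingHom ℂ)).charpoly.IsRoot z) :
    (A.map (Int.castRingHom ℂ)).charpoly.IsRoot (1 + 3 * z) := by
  rw [IsRoot, Matrix.eval_charpoly] at hz ⊢
  have e : Matrix.scalar (Fin m) (1 + 3 * z) - A.map (Int.castRingHom ℂ) =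
      (3 : ℂ) • (Matrix.scalar (Fin m) z - B.map (Int.castRingHom ℂ)) := by
    ext i j
    rw [hAB]
    by_cases hij : i = j
    · subst hij
      simp only [Matrix.sub_apply, Matrix.scalar_apply, Matrix.diagonal_apply_eq, Matrix.map_apply,
        Matrix.add_apply, Matrix.one_apply_eq, Matrix.smul_apply, smul_eq_mul, eq_intCast]
      push_cast
      ring
    · simp only [Matrix.sub_apply, Matrix.scalar_apply, Matrix.diagonal_apply_ne _ hij,
        Matrix.map_apply, Matrix.add_apply, Matrix.one_apply_ne hij, Matrix.smul_apply,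
        smul_eq_mul, eq_intCast]
      push_cast
      ring
  rw [e, Matrix.det_smul, hz, mul_zero]

theorem M6 {m : Nat} (A B : Matrix (Fin m) (Fin m) ℤ) (hAB : A = 1 + (3 : ℤ) • B)
    (hA : ∀ μ : ℂ, (A.map (Int.castRingHom ℂ)).charpoly.IsRoot μ → ∃ k : Nat, 0 < k ∧ μ ^ k = 1) :
    IsNilpotent (A - 1) := by
  have h1 : B.charpoly = X ^ m := by
    refine eq_X_pow m _ B.charpoly_monic (by rw [Matrix.charpoly_natDegree_eq_dim,
      Fintype.card_fin]) fun z hz => ?_
    rw [← Matrix.charpoly_map] at hz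
    obtain ⟨k, hk, hk'⟩ := hA _ (charpoly_root A B hAB hz)
    have h2 : ‖1 + 3 * z‖ = 1 := by
      have := congrArg norm hk'
      rw [norm_pow, norm_one] at this
      exact (pow_eq_one_iff_of_nonneg (norm_nonneg _) hk.ne').1 this
    have h3 : ‖3 * z‖ ≤ 2 := by
      calc ‖3 * z‖ = ‖(1 + 3 * z) - 1‖ := by congr 1; ring
        _ ≤ ‖1 + 3 * z‖ + ‖(1 : ℂ)‖ := norm_sub_le _ _
        _ = 2 := by rw [h2, norm_one]; norm_num
    rw [norm_mul] at h3
    have h4 : ‖(3 : ℂ)‖ = 3 := by simp
    rw [h4] at h3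
    linarith
  have h2 : B ^ m = 0 := by
    have := Matrix.aeval_self_charpoly B
    rw [h1] at this
    simpa using this
  refine ⟨m, ?_⟩
  rw [hAB, add_sub_cancel_left, _root_.smul_pow, h2, smul_zero]

theorem eq_one_of_nilpotent {m : ℕ} (N : Matrix (Fin m) (Fin m) ℤ) (hN : IsNilpotent N) (k : ℕ)
    (hk : 0 < k) (h : (1 + N) ^ k = 1) : N = 0 := by
  classical
  -- powers of `1 + N`
  have h1 : ∀ i : ℕ, ∃ T, (1 + N) ^ i = 1 + N * T := by
    intro i
    induction i with
    | zero => exact ⟨0, by simp⟩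
    | succ i ih =>
      obtain ⟨T, hT⟩ := ih
      refine ⟨1 + T + T * N, ?_⟩
      rw [pow_succ, hT]
      noncomm_ring
  have h2 : ∃ T, ∑ i ∈ Finset.range k, (1 + N) ^ i = (k : ℤ) • (1 : Matrix (Fin m) (Fin m) ℤ) +
      N * T := by
    choose T hT using h1
    refine ⟨∑ i ∈ Finset.range k, T i, ?_⟩
    rw [Finset.sum_congr rfl fun i _ => hT i, Finset.sum_add_distrib, Finset.mul_sum]
    simp
  obtain ⟨T, hT⟩ := h2
  have h3 : N * ((k : ℤ) • (1 : Matrix (Fin m) (Fin m) ℤ) + N * T) = 0 := by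
    rw [← hT]
    have := mul_geom_sum (1 + N) k
    rw [h, sub_self, add_sub_cancel_left] at this
    exact this
  by_contra hne
  have hex : ∃ j, N ^ j = 0 := hN
  set j := Nat.find hex with hj
  have hj0 : N ^ j = 0 := Nat.find_spec hex
  have hj2 : 2 ≤ j := by
    by_contra hlt
    have : j = 0 ∨ j = 1 := by omega
    rcases this with h' | h'
    · rw [h', pow_zero] at hj0
      apply hne
      calc N = N * 1 := (mul_one N).symm
        _ = 0 := by rw [hj0, mul_zero]
    · rw [h', pow_one] at hj0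
      exact hne hj0
  obtain ⟨i, hi⟩ : ∃ i, j = i + 2 := ⟨j - 2, by omega⟩
  have h4 : N ^ (i + 1) ≠ 0 := Nat.find_min hex (by omega)
  apply h4
  have h5 : N ^ i * (N * ((k : ℤ) • (1 : Matrix (Fin m) (Fin m) ℤ) + N * T)) = 0 := by
    rw [h3, mul_zero]
  have h6 : N ^ i * (N * ((k : ℤ) • (1 : Matrix (Fin m) (Fin m) ℤ) + N * T)) =
      (k : ℤ) • N ^ (i + 1) + N ^ (i + 2) * T := by
    rw [mul_add, mul_add, mul_smul_comm, mul_smul_comm, mul_one, pow_succ, pow_add, pow_two]
    simp only [mul_assoc]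
  rw [h6, ← hi, hj0, zero_mul, add_zero] at h5
  exact (smul_eq_zero.1 h5).resolve_left (by exact_mod_cast hk.ne')

theorem M6' {m : Nat} (A B : Matrix (Fin m) (Fin m) ℤ) (hAB : A = 1 + (3 : ℤ) • B) (k : ℕ)
    (hk : 0 < k) (hA : A ^ k = 1) : A = 1 := by
  have h1 : IsNilpotent (A - 1) := by
    refine M6 A B hAB fun z hz => ⟨k, hk, ?_⟩
    have h2 : (A.map (Int.castRingHom ℂ)) ^ k = 1 := by
      rw [← Matrix.map_pow, hA, Matrix.map_one _ (map_zero _) (map_one _)]
    have h3 : Module.End.HasEigenvalue (Matrix.toLin' (A.map (Int.castRingHom ℂ))) z := by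
      rw [Module.End.hasEigenvalue_iff_isRoot_charpoly, Matrix.charpoly_toLin']
      exact hz
    obtain ⟨v, hv⟩ := h3.exists_hasEigenvector
    have h4 := hv.pow_apply k
    rw [← Matrix.toLin'_pow, h2, Matrix.toLin'_one, LinearMap.id_apply] at h4
    have h5 : (z ^ k - 1) • v = 0 := by
      rw [sub_smul, one_smul, ← h4, sub_self]
    rcases smul_eq_zero.1 h5 with h' | h'
    · exact sub_eq_zero.1 h'
    · exact absurd h' hv.2
  have h2 := eq_one_of_nilpotent (A - 1) h1 k hk (by rw [add_sub_cancel]; exact hA)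
  exact sub_eq_zero.1 h2

end Pool.Agent.Helper68.AutF
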